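import Mathlib
import Pool.Agent.Y214.QP.NF

set_option autoImplicit false

open AlgebraicGeometry CategoryTheory CategoryTheory.Limits Polynomial NumberField

namespace Pool.Agent.Results.MP_a70ae2_nt.LocalObstruction

/-- The coordinate ring `k[x, y] / (y ^ 2 - F(x))` of the affine curve `y ^ 2 = F(x)`. -/
abbrev CoordRing {k : Type} [Field k] (F : k[X]) : Type := AdjoinRoot (X ^ 2 - C F : k[X][X])

/-- The degree of a point `p` of a `k`-scheme `s : X ⟶ Spec k`: the dimension over `k` of the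
residue field `κ(p)`, where `k` acts on `κ(p)` through `Spec κ(p) ⟶ X ⟶ Spec k`. -/
noncomputable def pointDegree {k : Type} [Field k] {X : Scheme.{0}}
    (s : X ⟶ Spec (CommRingCat.of k)) (p : X) : ℕ :=
  @Module.finrank k (X.residueField p) _ _
    ((Spec.preimage (X.fromSpecResidueField p ≫ s)).hom.toModule)

/-- Let `k` be any number field and let `g, h ≥ 2` be any genera. There are polynomials
`f₀, G₀` over the integers of `k`, of degrees `2 g + 2` and `2 h + 2`, such that for ALL `f, G`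
over the integers of `k`, of degrees at most `2 g + 2` and `2 h + 2`, that are congruent to `f₀` and
`G₀` modulo `45`:
* `f` and `G` have degrees exactly `2 g + 2` and `2 h + 2` and are irreducible over `k`, so that
  `y ^ 2 = f(x)` and `y ^ 2 = G(x)` are hyperelliptic curves of genus `g` and `h`;
* for all `k`-schemes `V, W` containing these two affine curves as open subschemes, the closed
  points of degree `2` of `V ×_k W` are not Zariski dense;
* if moreover `V` and `W` are covered by the two standard charts `y ^ 2 = f(x)` and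
  `y ^ 2 = f^rev(x)` (`x ^ (2 g + 2) f(1 / x) = f^rev(x)`) of the smooth projective hyperelliptic
  curve (respectively by those of `G`), then `V ×_k W` has no point of degree `1` or `2` at all. -/
theorem result (k : Type) [Field k] [NumberField k] (g h : ℕ) (hg : 2 ≤ g) (hh : 2 ≤ h) :
    ∃ f₀ G₀ : (𝓞 k)[X], f₀.natDegree = 2 * g + 2 ∧ G₀.natDegree = 2 * h + 2 ∧
      ∀ f G : (𝓞 k)[X], f.natDegree ≤ 2 * g + 2 → G.natDegree ≤ 2 * h + 2 →
        (∀ n, (45 : 𝓞 k) ∣ f.coeff n - f₀.coeff n) →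
        (∀ n, (45 : 𝓞 k) ∣ G.coeff n - G₀.coeff n) →
        (f.natDegree = 2 * g + 2 ∧ Irreducible (f.map (algebraMap (𝓞 k) k))) ∧
        (G.natDegree = 2 * h + 2 ∧ Irreducible (G.map (algebraMap (𝓞 k) k))) ∧
        (∀ (V W : Scheme.{0}) (v : V ⟶ Spec (CommRingCat.of k)) (w : W ⟶ Spec (CommRingCat.of k))
          (i : Spec (CommRingCat.of (CoordRing (f.map (algebraMap (𝓞 k) k)))) ⟶ V)
          (j : Spec (CommRingCat.of (CoordRing (G.map (algebraMap (𝓞 k) k)))) ⟶ W),
          IsOpenImmersion i → IsOpenImmersion j →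
          i ≫ v = Spec.map (CommRingCat.ofHom (algebraMap k _)) →
          j ≫ w = Spec.map (CommRingCat.ofHom (algebraMap k _)) →
          ¬ Dense {p : ↥(pullback v w) | IsClosed ({p} : Set ↥(pullback v w)) ∧
            pointDegree (pullback.fst v w ≫ v) p = 2}) ∧
        (∀ (V W : Scheme.{0}) (v : V ⟶ Spec (CommRingCat.of k)) (w : W ⟶ Spec (CommRingCat.of k))
          (i : Spec (CommRingCat.of (CoordRing (f.map (algebraMap (𝓞 k) k)))) ⟶ V)
          (i' : Spec (CommRingCat.of (CoordRing (f.map (algebraMap (𝓞 k) k)).reverse)) ⟶ V)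
          (j : Spec (CommRingCat.of (CoordRing (G.map (algebraMap (𝓞 k) k)))) ⟶ W)
          (j' : Spec (CommRingCat.of (CoordRing (G.map (algebraMap (𝓞 k) k)).reverse)) ⟶ W),
          IsOpenImmersion i → IsOpenImmersion i' → IsOpenImmersion j → IsOpenImmersion j' →
          i ≫ v = Spec.map (CommRingCat.ofHom (algebraMap k _)) →
          i' ≫ v = Spec.map (CommRingCat.ofHom (algebraMap k _)) →
          j ≫ w = Spec.map (CommRingCat.ofHom (algebraMap k _)) →
          j' ≫ w = Spec.map (CommRingCat.ofHom (algebraMap k _)) →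
          (∀ x : V, x ∈ Set.range i ∨ x ∈ Set.range i') →
          (∀ x : W, x ∈ Set.range j ∨ x ∈ Set.range j') →
          ∀ p : ↥(pullback v w), pointDegree (pullback.fst v w ≫ v) p ≠ 1 ∧
            pointDegree (pullback.fst v w ≫ v) p ≠ 2) := by
  obtain ⟨P, hP, hP0, hP3, hPfin⟩ := Pool.Agent.Y214.QP.exists_prime_over k 3 (by norm_num)
  obtain ⟨Q, hQ, hQ0, hQ5, hQfin⟩ := Pool.Agent.Y214.QP.exists_prime_over k 5 (by norm_num)
  obtain ⟨f₀, G₀, hf₀, hG₀, hall⟩ := Pool.Agent.Y214.QP.class_exists (k := k) P Q hP0 hQ0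
    (by exact_mod_cast hP3) (by exact_mod_cast hQ5) (g + 1) (h + 1) (by omega) (by omega)
  refine ⟨f₀, G₀, by rw [hf₀]; ring, by rw [hG₀]; ring, ?_⟩
  intro f G hf hG hcf hcG
  obtain ⟨⟨hf1, hf2⟩, ⟨hG1, hG2⟩, hno⟩ := hall f G (by omega) (by omega) hcf hcG
  have hinj : Function.Injective (algebraMap (𝓞 k) k) := IsFractionRing.injective (𝓞 k) k
  have hfk : (f.map (algebraMap (𝓞 k) k)).natDegree = 2 * (g + 1) := by
    rw [natDegree_map_eq_of_injective hinj, hf1]
  have hGk : (G.map (algebraMap (𝓞 k) k)).natDegree = 2 * (h + 1) := by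
    rw [natDegree_map_eq_of_injective hinj, hG1]
  refine ⟨⟨by omega, hf2⟩, ⟨by omega, hG2⟩, ?_, ?_⟩
  · intro V W v w i j _ _ hi hj hdense
    obtain ⟨p, hp1, hp2⟩ := hdense.inter_open_nonempty _
      (Pool.Agent.Y214.QP.isOpen_goodSet v w i j)
      (Pool.Agent.Y214.QP.goodSet_nonempty _ _ v w i j hi hj)
    exact (Pool.Agent.Y214.QP.noPoints_chart f G (g + 1) (h + 1) hno hfk hGk v w _ _
      (Or.inl rfl) (Or.inl rfl) i j hi hj p hp1.1 hp1.2).2 hp2.2
  · intro V W v w i i' j j' _ _ _ _ hi hi' hj hj' hV hW p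
    rcases hV (pullback.fst v w p) with h1 | h1 <;> rcases hW (pullback.snd v w p) with h2 | h2
    · exact Pool.Agent.Y214.QP.noPoints_chart f G (g + 1) (h + 1) hno hfk hGk v w _ _
        (Or.inl rfl) (Or.inl rfl) i j hi hj p h1 h2
    · exact Pool.Agent.Y214.QP.noPoints_chart f G (g + 1) (h + 1) hno hfk hGk v w _ _
        (Or.inl rfl) (Or.inr rfl) i j' hi hj' p h1 h2
    · exact Pool.Agent.Y214.QP.noPoints_chart f G (g + 1) (h + 1) hno hfk hGk v w _ _
        (Or.inr rfl) (Or.inl rfl) i' j hi' hj p h1 h2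
    · exact Pool.Agent.Y214.QP.noPoints_chart f G (g + 1) (h + 1) hno hfk hGk v w _ _
        (Or.inr rfl) (Or.inr rfl) i' j' hi' hj' p h1 h2

end Pool.Agent.Results.MP_a70ae2_nt.LocalObstruction
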